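import Pool.Agent.W_MP_e98908_an_h3.Main

/-!
# MP_e98908_an : orthogonal laminates attaining the Bergman-Milton bound

For isotropic three-dimensional composites with volume fraction `f`, the values `σ_*(σ)` at a nonreal
`σ` fill at most a lens bounded by two circular arcs (Bergman, Milton 1980).  The functions
`g(σ) = 1 + f (σ - 1) - (f (1 - f) / 3) (σ - 1) ^ 2 / (1 + z (σ - 1))`,
`(1 - f) / 3 ≤ z ≤ 1 - f / 3`, trace one of the two arcs.  For `z` in the windows
`(2 - f) / 4 ≤ z ≤ min ((2 - f) / 3, 1 - f)` and `max ((2 - f) / 3, 1 - f) ≤ z ≤ (3 - f) / 4`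
that function is the conductivity function of a (finite rank) laminate with coordinate lamination
directions, and every isotropic periodic composite with volume fraction `f` which has the same
effective tensor at a single nonreal `σ₀` has this conductivity function.
-/

namespace Pool.Agent.Results.MP_e98908_an.BergmanMiltonArc

open MeasureTheory Complex W_MP_e98908_an

theorem result (f z : ℝ) (hf0 : 0 < f) (hf1 : f < 1)
    (hz : ((2 - f) / 4 ≤ z ∧ z ≤ (2 - f) / 3 ∧ z ≤ 1 - f) ∨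
      ((2 - f) / 3 ≤ z ∧ 1 - f ≤ z ∧ z ≤ (3 - f) / 4)) :
    ∃ L : CFun, IsLaminate coordDirs L ∧
      (∀ σ ∈ slitPlane, L σ =
        (1 + f * (σ - 1) - f * (1 - f) / 3 * (σ - 1) ^ 2 / (1 + z * (σ - 1)) : ℂ) •
          (1 : Matrix (Fin 3) (Fin 3) ℂ)) ∧
      ∀ (b : Module.Basis (Fin 3) ℝ (Fin 3 → ℝ)) (S : Set Cell) (g : ℂ → ℂ),
        IsIsotropicComposite b S g → cellMeasure.real S = f →
        ∀ σ₀ : ℂ, σ₀.im ≠ 0 → L σ₀ = g σ₀ • (1 : Matrix (Fin 3) (Fin 3) ℂ) →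
        ∀ σ ∈ slitPlane, L σ = g σ • (1 : Matrix (Fin 3) (Fin 3) ℂ) := by
  obtain ⟨L, hL, h⟩ := lam_gBM hf0 hf1 hz
  have hz01 : 0 < z ∧ z < 1 := by
    rcases hz with ⟨h1, h2, h3⟩ | ⟨h1, h2, h3⟩
    · constructor <;> linarith
    · constructor <;> linarith
  refine ⟨L, hL, h, ?_⟩
  intro b S g hg hS σ₀ hσ₀ h₀ σ hσ
  have hσ₀s : σ₀ ∈ slitPlane := by rw [mem_slitPlane_iff]; exact Or.inr hσ₀
  have h1 : g σ₀ = gBM f z σ₀ := by
    rw [h σ₀ hσ₀s] at h₀
    have := congrFun (congrFun h₀ 0) 0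
    simpa using this.symm
  rw [h σ hσ, eq_gBM hg hz01.1 hz01.2 hσ₀ (by rw [hS]; exact h1) σ hσ, hS]

end Pool.Agent.Results.MP_e98908_an.BergmanMiltonArc
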