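import Pool.Agent.W_MP_e98908_an_h58.Final

/-!
# MP_e98908_an : laminating in mutually orthogonal directions does not suffice

Negative answer to Q2.  There is a three-dimensional isotropic periodic composite of two phases
(phase 1 occupying the measurable set `S` of the unit cell, cubic lattice of periods) whose
conductivity function `g` is not a limit of conductivity functions of multiple rank laminates in
mutually orthogonal directions: there are finitely many points `x > 0` and `ε > 0` such that every
laminate `L` all of whose lamination directions belong to one orthonormal basis `v` of `ℝ³` (the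
basis may depend on `L`, and `L` need not be isotropic) has, at one of these points `x`, an entry of
`L x - g x • 1` of absolute value at least `ε`.
-/

namespace Pool.Agent.Results.MP_e98908_an.OrthogonalNotEnough

open W_MP_e98908_an

/-- `v` is an orthonormal basis of `ℝ³`. -/
def IsOrthoBasis (v : Fin 3 → Fin 3 → ℝ) : Prop := ∀ i j, v i ⬝ᵥ v j = if i = j then 1 else 0

theorem result :
    ∃ (S : Set Cell) (g : ℂ → ℂ), IsIsotropicComposite (Pi.basisFun ℝ (Fin 3)) S g ∧
      ∃ (X : Finset ℝ) (ε : ℝ), (∀ x ∈ X, 0 < x) ∧ 0 < ε ∧
        ∀ v : Fin 3 → Fin 3 → ℝ, IsOrthoBasis v → ∀ L : CFun, IsLaminate (Set.range v) L →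
          ∃ x ∈ X, ∃ i j, ε ≤ ‖(L x - g x • (1 : Matrix (Fin 3) (Fin 3) ℂ)) i j‖ :=
  H58.final.1

end Pool.Agent.Results.MP_e98908_an.OrthogonalNotEnough
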