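import Pool.Agent.W_MP_e98908_an_h89.Final

/-!
# MP_e98908_an : composites attaining the phase interchange bound are orthogonal laminates

Let `g` be the conductivity function of a three-dimensional isotropic periodic composite of two
phases (conductivities `σ` and `1`; any lattice of periods, described by the dual basis `b`, and any
measurable set `S` occupied by phase 1).  Suppose that equality holds in the phase interchange
inequality `g(x) g(1/x) + (g(x) + x g(1/x)) / (x + 1) ≥ 2` for all real `x > 0`, or only for the
points `x` of some set which has an accumulation point `x₀ > 0`.  Then `g` is the locally uniform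
limit, on the complex plane cut along the nonpositive reals, of conductivity functions `G k` of
isotropic multiple rank laminates `L k`, all of whose lamination directions are the three coordinate
directions.
-/

namespace Pool.Agent.Results.MP_e98908_an.PhaseInterchangeEquality

open Filter Topology Complex W_MP_e98908_an

theorem result (b : Module.Basis (Fin 3) ℝ (Fin 3 → ℝ)) (S : Set Cell) (g : ℂ → ℂ)
    (hg : IsIsotropicComposite b S g) (x₀ : ℝ) (hx₀ : 0 < x₀)
    (heq : ∃ᶠ x : ℝ in 𝓝[≠] x₀, g x * g (1 / x) + (g x + x * g (1 / x)) / (x + 1) = 2) :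
    ∃ (L : ℕ → CFun) (G : ℕ → ℂ → ℂ),
      (∀ k, IsLaminate coordDirs (L k)) ∧
      (∀ k, ∀ σ ∈ slitPlane, L k σ = G k σ • (1 : Matrix (Fin 3) (Fin 3) ℂ)) ∧
      TendstoLocallyUniformlyOn G g atTop slitPlane := by
  obtain ⟨G, hG, hGt⟩ := final b S g hg x₀ hx₀ heq
  choose L hL using hG
  exact ⟨L, G, fun k => (hL k).1, fun k σ hσ => ((hL k).2 σ hσ).1, hGt⟩

end Pool.Agent.Results.MP_e98908_an.PhaseInterchangeEquality
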